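import Pool.Agent.Q51.ZC.Stm2

/-! # Project ZC of helper51: JOB LAN, the local analysis for one embedding -/

set_option autoImplicit false

namespace Pool.Agent.Q92.ZC

open Polynomial Finset
open Pool.Agent.Q51.ZC

section lan

variable {l : ℕ} [Fact l.Prime]

lemma norm_intCast_le (k : ℤ) : ‖(k : Om l)‖ ≤ 1 := by
  have h : (k : Om l) = algebraMap ℚ_[l] (Om l) (k : ℚ_[l]) := by simp
  rw [h, norm_ext]
  exact Padic.norm_int_le_one k

lemma norm_intCast_eq {k : ℤ} (hk : ¬ (l : ℤ) ∣ k) : ‖(k : Om l)‖ = 1 := by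
  refine le_antisymm (norm_intCast_le k) ?_
  by_contra h1
  have h : (k : Om l) = algebraMap ℚ_[l] (Om l) (k : ℚ_[l]) := by simp
  rw [h, norm_ext, not_le, Padic.norm_intCast_lt_one_iff] at h1
  exact hk h1

/-- if `‖a‖ < ‖b‖` then `‖b - a‖ = ‖b‖` -/
lemma norm_sub_of_lt {a b : Om l} (h : ‖a‖ < ‖b‖) : ‖b - a‖ = ‖b‖ := by
  refine norm_eq_of_lt (a := b) (b := b - a) ?_
  rw [show b - (b - a) = a by ring]
  exact h

lemma norm_sub_le_one {a b : Om l} (ha : ‖a‖ ≤ 1) (hb : ‖b‖ ≤ 1) : ‖a - b‖ ≤ 1 := by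
  have h1 : ‖a + (-b)‖ ≤ max ‖a‖ ‖-b‖ := PadicAlgCl.isNonarchimedean l _ _
  rw [norm_neg, ← sub_eq_add_neg] at h1
  exact h1.trans (max_le ha hb)

open Classical in
theorem lan : S_LAN := by
  intro f q D l _ hg hq hqn hD x w z β hxw hβ hprod
  have hlc : ‖(f.leadingCoeff : Om l)‖ = 1 := norm_intCast_eq hg.lead
  have hlc0 : (f.leadingCoeff : Om l) ≠ 0 := by
    intro h0
    rw [h0, norm_zero] at hlc
    exact zero_ne_one hlc
  have hD0 : (D : Om l) ≠ 0 := by exact_mod_cast hD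
  have hb : ∀ ρ ∈ Rt f l, x - ρ * w ≠ 0 → β ρ = x - ρ * w := by
    intro ρ hρ h0
    have h1 := (hβ ρ hρ).2
    rcases mul_eq_zero.mp h1 with h2 | h2
    · exact absurd h2 h0
    · exact sub_eq_zero.mp h2
  have hnp : ∀ (c : ℝ), (∀ ρ ∈ Rt f l, ‖β ρ‖ = c) → ‖(D : Om l)‖ * ‖z‖ ^ q = c ^ f.natDegree := by
    intro c hc
    have h1 := congrArg (fun t => ‖t‖) hprod
    simp only [norm_mul, norm_pow, hlc, one_mul, norm_prod] at h1
    rw [prod_congr rfl hc, prod_const, hg.card] at h1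
    exact h1.symm
  by_cases hwx : ‖w‖ < ‖x‖
  · left
    have h1 : ∀ ρ ∈ Rt f l, ‖ρ * w‖ < ‖x‖ := by
      intro ρ hρ
      rw [norm_mul]
      calc ‖ρ‖ * ‖w‖ ≤ 1 * ‖w‖ := mul_le_mul_of_nonneg_right (hg.int ρ hρ) (norm_nonneg _)
        _ = ‖w‖ := one_mul _
        _ < ‖x‖ := hwx
    have hx0 : 0 < ‖x‖ := lt_of_le_of_lt (norm_nonneg _) hwx
    have h2 : ∀ ρ ∈ Rt f l, ‖x - ρ * w‖ = ‖x‖ := fun ρ hρ => norm_sub_of_lt (h1 ρ hρ)
    have h3 : ∀ ρ ∈ Rt f l, β ρ = x - ρ * w := by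
      intro ρ hρ
      refine hb ρ hρ ?_
      intro h0
      have h4 := h2 ρ hρ
      rw [h0, norm_zero] at h4
      exact hx0.ne h4
    refine ⟨hwx, fun ρ hρ => ?_, ?_⟩
    · rw [h3 ρ hρ, show x - (x - ρ * w) = ρ * w by ring]
      exact h1 ρ hρ
    · exact hnp _ fun ρ hρ => by rw [h3 ρ hρ, h2 ρ hρ]
  · right
    rw [not_lt] at hwx
    have hw0 : w ≠ 0 := by
      intro h0
      rw [h0, norm_zero] at hwx
      have h1 : x = 0 := norm_le_zero_iff.mp hwx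
      rcases hxw with h2 | h2
      · exact h2 h1
      · exact h2 h0
    have hwp : 0 < ‖w‖ := norm_pos_iff.mpr hw0
    have hξ : ‖x / w‖ ≤ 1 := by
      rw [norm_div]
      exact (div_le_one hwp).mpr hwx
    have hξr : ∀ ρ ∈ Rt f l, ‖x / w - ρ‖ ≤ 1 := fun ρ hρ => norm_sub_le_one hξ (hg.int ρ hρ)
    have hxr : ∀ ρ : Om l, x - ρ * w = w * (x / w - ρ) := by
      intro ρ
      field_simp
    have hb2 : ∀ ρ ∈ Rt f l, ‖x / w - ρ‖ = 1 → β ρ = w * (x / w - ρ) := by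
      intro ρ hρ h1
      rw [← hxr]
      refine hb ρ hρ ?_
      rw [hxr]
      refine mul_ne_zero hw0 ?_
      intro h0
      rw [h0, norm_zero] at h1
      exact zero_ne_one h1
    by_cases hall : ∀ ρ ∈ Rt f l, ‖x / w - ρ‖ = 1
    · left
      refine ⟨hw0, hξ, fun ρ hρ => ⟨hall ρ hρ, hb2 ρ hρ (hall ρ hρ)⟩, ?_⟩
      refine hnp _ fun ρ hρ => ?_
      rw [hb2 ρ hρ (hall ρ hρ), norm_mul, hall ρ hρ, mul_one]
    · right
      push Not at hall
      obtain ⟨ρ0, hρ0, hne⟩ := hall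
      have hlt : ‖x / w - ρ0‖ < 1 := lt_of_le_of_ne (hξr ρ0 hρ0) hne
      have hoth : ∀ ρ ∈ Rt f l, ρ ≠ ρ0 → ‖x / w - ρ‖ = 1 ∧
          ‖w * (ρ0 - ρ) - β ρ‖ < ‖w * (ρ0 - ρ)‖ := by
        intro ρ hρ hr
        have h1 : ‖ρ0 - ρ‖ = 1 := hg.diff ρ0 hρ0 ρ hρ (Ne.symm hr)
        have h2 : ‖x / w - ρ‖ = 1 := by
          have h3 : x / w - ρ = (ρ0 - ρ) - (-(x / w - ρ0)) := by ring
          rw [h3, norm_sub_of_lt, h1]
          rw [norm_neg, h1]
          exact hlt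
        refine ⟨h2, ?_⟩
        rw [hb2 ρ hρ h2]
        have h4 : w * (ρ0 - ρ) - w * (x / w - ρ) = -(w * (x / w - ρ0)) := by ring
        rw [h4, norm_neg, norm_mul, norm_mul, h1, mul_one]
        calc ‖w‖ * ‖x / w - ρ0‖ < ‖w‖ * 1 := mul_lt_mul_of_pos_left hlt hwp
          _ = ‖w‖ := mul_one _
      refine ⟨hw0, hξ, ρ0, hρ0, hlt, hoth, ?_⟩
      have hA : ‖∏ ρ ∈ (Rt f l).erase ρ0, w * (ρ0 - ρ) - ∏ ρ ∈ (Rt f l).erase ρ0, β ρ‖ <
          ‖∏ ρ ∈ (Rt f l).erase ρ0, w * (ρ0 - ρ)‖ := by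
        refine ap_prod _ fun ρ hρ => ?_
        rw [mem_erase] at hρ
        exact (hoth ρ hρ.2 hρ.1).2
      have hinv := ap_inv hA
      rw [prod_mul_distrib, prod_const] at hinv
      have hcard : ((Rt f l).erase ρ0).card + 1 = f.natDegree := by
        rw [card_erase_add_one hρ0, hg.card]
      set Pi0 := ∏ ρ ∈ (Rt f l).erase ρ0, (ρ0 - ρ) with hPi0
      set A := ∏ ρ ∈ (Rt f l).erase ρ0, β ρ with hAd
      have hA0 : A ≠ 0 := by
        rw [hAd, prod_ne_zero_iff]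
        intro ρ hρ
        exact (hβ ρ (mem_of_mem_erase hρ)).1
      have hPi00 : Pi0 ≠ 0 := by
        rw [hPi0, prod_ne_zero_iff]
        intro ρ hρ
        rw [mem_erase] at hρ
        exact sub_ne_zero.mpr (Ne.symm hρ.1)
      have hβ0 : β ρ0 = (D : Om l) * z ^ q * (f.leadingCoeff : Om l)⁻¹ * A⁻¹ := by
        have h1 : (∏ ρ ∈ Rt f l, β ρ) = β ρ0 * A := by
          rw [hAd, mul_prod_erase _ _ hρ0]
        rw [h1] at hprod
        field_simp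
        linear_combination hprod
      have hwn : (w ^ (f.natDegree / q)) ^ q = w ^ ((Rt f l).erase ρ0).card * w := by
        rw [← pow_mul, Nat.div_mul_cancel hqn, ← hcard, pow_succ]
      have hlhs : w * ((D : Om l) / ((f.leadingCoeff : Om l) * Pi0)) *
          (z / w ^ (f.natDegree / q)) ^ q =
          (D : Om l) * z ^ q * (f.leadingCoeff : Om l)⁻¹ * (w ^ ((Rt f l).erase ρ0).card * Pi0)⁻¹ := by
        rw [div_pow, hwn]
        field_simp
      have hcoef : (D : Om l) * z ^ q * (f.leadingCoeff : Om l)⁻¹ ≠ 0 := by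
        intro h0
        rw [h0, zero_mul] at hβ0
        exact (hβ ρ0 hρ0).1 hβ0
      rw [hlhs, hβ0, ← mul_sub, norm_mul, norm_mul _ A⁻¹]
      refine mul_lt_mul_of_pos_left ?_ (norm_pos_iff.mpr hcoef)
      rw [norm_eq_of_lt hinv]
      exact hinv

end lan

end Pool.Agent.Q92.ZC
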