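import Pool.Agent.Q51.ZC.Stm2

/-! # Project ZC of helper51: JOB LMUL, products -/

set_option autoImplicit false

namespace Pool.Agent.Q92.ZC

open Polynomial Finset
open Pool.Agent.Q51.ZC
open Pool.Agent.Q51.SE (Alg cl Point IsValue IsUnitAt)

section lmul

variable {l : ℕ} [Fact l.Prime] {f : ℤ[X]}

lemma evl_mul {ρ : Om l} (h : ρ ∈ Rt f l) (A B : Alg f ℚ_[l]) :
    evl f l ρ (A * B) = evl f l ρ A * evl f l ρ B := ev_mul _ (isZ_of_mem h) A B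

lemma evl_one {ρ : Om l} (h : ρ ∈ Rt f l) : evl f l ρ 1 = 1 := ev_one _ (isZ_of_mem h)

lemma evl_inv {ρ : Om l} (h : ρ ∈ Rt f l) (A : (Alg f ℚ_[l])ˣ) :
    evl f l ρ ((A⁻¹ : (Alg f ℚ_[l])ˣ) : Alg f ℚ_[l]) = (evl f l ρ A)⁻¹ := ev_inv _ (isZ_of_mem h) A

lemma evl_pow {ρ : Om l} (h : ρ ∈ Rt f l) (A : Alg f ℚ_[l]) (n : ℕ) :
    evl f l ρ (A ^ n) = evl f l ρ A ^ n := ev_pow _ (isZ_of_mem h) A n

lemma evl_ne {ρ : Om l} (h : ρ ∈ Rt f l) (A : (Alg f ℚ_[l])ˣ) : evl f l ρ A ≠ 0 :=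
  ev_ne _ (isZ_of_mem h) A

lemma evl_cst {ρ : Om l} (h : ρ ∈ Rt f l) (c : (ℚ_[l])ˣ) :
    evl f l ρ ((cst f c : (Alg f ℚ_[l])ˣ) : Alg f ℚ_[l]) = algebraMap ℚ_[l] (Om l) (c : ℚ_[l]) :=
  ev_algebraMap _ (isZ_of_mem h) _

/-- the base of the second factor of `Wf` is not zero -/
lemma base_ne (hg : GoodAt f l) {D : ℤ} (hD : D ≠ 0) (ρ : Om l) :
    (open Classical in
    ((D : Om l) / ((f.leadingCoeff : Om l) * ∏ ρ' ∈ (Rt f l).erase ρ, (ρ - ρ')) ≠ 0)) := by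
  classical
  refine div_ne_zero (by exact_mod_cast hD) (mul_ne_zero ?_ ?_)
  · intro h0
    have h1 : f.leadingCoeff = 0 := by exact_mod_cast h0
    exact hg.lead (by rw [h1]; exact dvd_zero _)
  · rw [prod_ne_zero_iff]
    intro ρ' h'
    rw [mem_erase] at h'
    exact sub_ne_zero.mpr (Ne.symm h'.1)

lemma Wf_add (hg : GoodAt f l) {D : ℤ} (hD : D ≠ 0) (M M' : Om l → ℤ) (ρ : Om l) :
    Wf f l D (M + M') ρ = Wf f l D M ρ * Wf f l D M' ρ := by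
  classical
  unfold Wf
  rw [Pi.add_apply, zpow_add₀ (by convert base_ne hg hD ρ)]
  have h1 : ∏ ρ' ∈ (Rt f l).erase ρ, (ρ' - ρ) ^ (M + M') ρ' =
      (∏ ρ' ∈ (Rt f l).erase ρ, (ρ' - ρ) ^ M ρ') * ∏ ρ' ∈ (Rt f l).erase ρ, (ρ' - ρ) ^ M' ρ' := by
    rw [← prod_mul_distrib]
    refine prod_congr rfl fun ρ' h' => ?_
    rw [mem_erase] at h'
    rw [Pi.add_apply, zpow_add₀ (sub_ne_zero.mpr h'.1)]
  rw [show (∏ ρ' ∈ @Finset.erase (Om l) (Classical.decEq _) (Rt f l) ρ, (ρ' - ρ) ^ (M + M') ρ') =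
    (∏ ρ' ∈ (Rt f l).erase ρ, (ρ' - ρ) ^ (M + M') ρ') by congr!, h1]
  ring

lemma Wf_zero {D : ℤ} (ρ : Om l) : Wf f l D 0 ρ = 1 := by
  classical
  unfold Wf
  simp

lemma Wf_neg (hg : GoodAt f l) {D : ℤ} (hD : D ≠ 0) (M : Om l → ℤ) (ρ : Om l) :
    Wf f l D (-M) ρ = (Wf f l D M ρ)⁻¹ := by
  have h1 := Wf_add hg hD M (-M) ρ
  rw [add_neg_cancel, Wf_zero] at h1
  exact (inv_eq_of_mul_eq_one_right h1.symm).symm

theorem lmul (h : S_INTP) : S_LMUL := by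
  intro f q l _ hg
  have hu := (h f l hg).2.2
  refine ⟨?_, ?_, ?_, ?_⟩
  · rintro A B ⟨c, κ, h1⟩ ⟨c', κ', h2⟩
    refine ⟨c * c', κ * κ', fun ρ hρ => ?_⟩
    rw [Units.val_mul, Units.val_mul, Units.val_mul, evl_mul hρ, evl_mul hρ, norm_mul, norm_mul,
      norm_mul, h1 ρ hρ, h2 ρ hρ, mul_pow]
    ring
  · rintro A ⟨c, κ, h1⟩
    refine ⟨c⁻¹, κ⁻¹, fun ρ hρ => ?_⟩
    rw [evl_inv hρ, evl_inv hρ, Units.val_inv_eq_inv_val, norm_inv, norm_inv, norm_inv, h1 ρ hρ,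
      mul_inv, inv_pow]
  · intro c g u hu1
    refine ⟨c, g, fun ρ hρ => ?_⟩
    rw [Units.val_mul, Units.val_mul, evl_mul hρ, evl_mul hρ, evl_cst hρ, Units.val_pow_eq_pow_val,
      evl_pow hρ, norm_mul, norm_mul, norm_pow, norm_ext, hu u hu1 ρ hρ, mul_one]
  · intro D hD
    have hmain : ∀ (c : (ℚ_[l])ˣ) (g : (Alg f ℚ_[l])ˣ), LocP f q l D (cst f c * g ^ q) 0 := by
      intro c g
      refine ⟨0, c, g, fun _ _ => rfl, by simp, fun ρ hρ => ?_⟩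
      have h1 : evl f l ρ ((cst f c * g ^ q : (Alg f ℚ_[l])ˣ) : Alg f ℚ_[l]) =
          algebraMap ℚ_[l] (Om l) (c : ℚ_[l]) * evl f l ρ g ^ q * Wf f l D 0 ρ := by
        rw [Units.val_mul, evl_mul hρ, evl_cst hρ, Units.val_pow_eq_pow_val, evl_pow hρ, Wf_zero,
          mul_one]
      rw [← h1]
      exact ap_refl (evl_ne hρ _)
    refine ⟨?_, ?_, ?_, hmain⟩
    · have h1 := hmain 1 1
      have h2 : cst f (1 : (ℚ_[l])ˣ) * (1 : (Alg f ℚ_[l])ˣ) ^ q = 1 := by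
        unfold cst
        rw [map_one, one_pow, mul_one]
      rw [h2] at h1
      exact h1
    · rintro A B d e ⟨M, c, κ, hM, hd, h1⟩ ⟨M', c', κ', hM', he, h2⟩
      refine ⟨M + M', c * c', κ * κ', fun g ρ => ?_, ?_, fun ρ hρ => ?_⟩
      · rw [Pi.add_apply, Pi.add_apply, hM g ρ, hM' g ρ]
      · have h3 : ∑ ρ ∈ Rt f l, (M + M') ρ - (d + e) =
            (∑ ρ ∈ Rt f l, M ρ - d) + (∑ ρ ∈ Rt f l, M' ρ - e) := by
          simp only [Pi.add_apply, sum_add_distrib]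
          ring
        rw [h3]
        exact dvd_add hd he
      · have h3 := ap_mul (h1 ρ hρ) (h2 ρ hρ)
        rw [Units.val_mul, Units.val_mul, Units.val_mul, evl_mul hρ, evl_mul hρ, map_mul,
          Wf_add hg hD, mul_pow]
        convert h3 using 3
        ring
    · rintro A d ⟨M, c, κ, hM, hd, h1⟩
      refine ⟨-M, c⁻¹, κ⁻¹, fun g ρ => ?_, ?_, fun ρ hρ => ?_⟩
      · rw [Pi.neg_apply, Pi.neg_apply, hM g ρ]
      · have h3 : ∑ ρ ∈ Rt f l, (-M) ρ - (-d) = -(∑ ρ ∈ Rt f l, M ρ - d) := by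
          simp only [Pi.neg_apply, sum_neg_distrib]
          ring
        rw [h3]
        exact (dvd_neg (α := ℤ)).mpr hd
      · have h3 := ap_inv (h1 ρ hρ)
        rw [evl_inv hρ, evl_inv hρ, Units.val_inv_eq_inv_val, map_inv₀, Wf_neg hg hD, inv_pow,
          ← mul_inv, ← mul_inv]
        exact h3

end lmul

end Pool.Agent.Q92.ZC
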